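import Pool.Agent.Helper89.UB.Stmts

set_option autoImplicit false

/-! # The recursion for the chromatic polynomials -/

open Finset

namespace Pool.Agent.Helper89.UB

/-- the polynomial behind `PW` -/
noncomputable def krecP {n : ℕ} (E : Finset (Finset (Fin n))) (W : Finset (Fin n)) :
    Polynomial ℂ :=
  ∑ m ∈ range (W.card + 1), Polynomial.C ((sur E W m : ℂ) / (m.factorial : ℂ)) *
    ∏ i ∈ range m, (Polynomial.X - Polynomial.C (i : ℂ))

theorem krec_eval {n : ℕ} (E : Finset (Finset (Fin n))) (W : Finset (Fin n)) (x : ℂ) :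
    (krecP E W).eval x = PW E W x := by
  unfold krecP PW
  rw [Polynomial.eval_finsetSum]
  apply Finset.sum_congr rfl
  intro m _
  rw [Polynomial.eval_mul, Polynomial.eval_C, Polynomial.eval_prod]
  congr 1
  apply Finset.prod_congr rfl
  intro i _
  rw [Polynomial.eval_sub, Polynomial.eval_X, Polynomial.eval_C]

theorem st_KREC (h1 : ST_PNAT) (h2 : ST_KCOL) : ST_KREC := by
  intro n E hE x W v hv
  have hpoly : krecP E W = Polynomial.X * ∑ S ∈ (W.erase v).powerset,
      Polynomial.C (kap E v S : ℂ) * krecP E ((W.erase v) \ S) := by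
    apply Polynomial.eq_of_infinite_eval_eq
    apply Set.Infinite.mono (s := Set.range (fun q : ℕ => (q : ℂ)))
    · rintro _ ⟨q, rfl⟩
      show (krecP E W).eval (q : ℂ) = (Polynomial.X * ∑ S ∈ (W.erase v).powerset,
        Polynomial.C (kap E v S : ℂ) * krecP E ((W.erase v) \ S)).eval (q : ℂ)
      rw [krec_eval, h1 n E hE, h2 n E hE q W v hv, Polynomial.eval_mul, Polynomial.eval_X,
        Polynomial.eval_finsetSum]
      push_cast
      congr 1
      apply Finset.sum_congr rfl
      intro S _
      rw [Polynomial.eval_mul, Polynomial.eval_C, krec_eval, h1 n E hE]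
    · exact Set.infinite_range_of_injective Nat.cast_injective
  have h3 := congrArg (Polynomial.eval x) hpoly
  rw [krec_eval, Polynomial.eval_mul, Polynomial.eval_X, Polynomial.eval_finsetSum] at h3
  rw [h3]
  congr 1
  apply Finset.sum_congr rfl
  intro S _
  rw [Polynomial.eval_mul, Polynomial.eval_C, krec_eval]

end Pool.Agent.Helper89.UB
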