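import Pool.Agent.Helper89.UB.Stmts

set_option autoImplicit false

/-! # Ratios of the chromatic polynomials -/

open Finset

namespace Pool.Agent.Helper89.UB

theorem rat_al {n : ℕ} (E : Finset (Finset (Fin n))) (hE : ∀ e ∈ E, e.card = 2) : Al E ∅ := by
  intro e he h
  have h1 := hE e he
  rw [Finset.subset_empty.mp h] at h1
  simp at h1

theorem rat_dg {n Δ : ℕ} (E : Finset (Finset (Fin n))) (hE : ∀ e ∈ E, e.card = 2)
    (hd : ∀ v, deg2 E v ≤ Δ) (U : Finset (Fin n)) (v : Fin n) : dg E U v ≤ Δ := by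
  refine le_trans ?_ (hd v)
  unfold dg deg2
  apply Finset.card_le_card_of_injOn (fun u => ({v, u} : Finset (Fin n)))
  · intro u hu
    have hu' := Finset.mem_filter.mp (Finset.mem_coe.mp hu)
    apply Finset.mem_coe.mpr
    apply Finset.mem_filter.mpr
    refine ⟨hu'.2.1, hE _ hu'.2.1, ?_⟩
    show v ∈ ({v, u} : Finset (Fin n))
    simp
  · intro u hu w hw h
    have hu' := Finset.mem_filter.mp (Finset.mem_coe.mp hu)
    have h0 : ({v, u} : Finset (Fin n)) = {v, w} := h
    have h1 : u ∈ ({v, w} : Finset (Fin n)) := by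
      rw [← h0]
      simp
    simp only [Finset.mem_insert, Finset.mem_singleton] at h1
    rcases h1 with h1 | h1
    · exact absurd h1 hu'.2.2
    · exact h1

theorem rat_empty {n : ℕ} (E : Finset (Finset (Fin n))) (x : ℂ) : PW E ∅ x = 1 := by
  classical
  have h1 : OP E (∅ : Finset (Fin n)) 0 = Finset.univ := by
    unfold OP
    apply Finset.filter_true_of_mem
    intro c _
    refine ⟨fun i => i.elim0, fun i => i.elim0, ?_, fun i => i.elim0⟩
    intro v
    constructor
    · intro h
      simp at h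
    · rintro ⟨i, _⟩
      exact i.elim0
  unfold PW sur
  rw [Finset.card_empty, Finset.sum_range_one, h1]
  simp

/-- removal of the elements one by one -/
theorem rat_remove {n : ℕ} (E : Finset (Finset (Fin n))) (x : ℂ) (y : ℝ) (hy : 0 ≤ y)
    (U : Finset (Fin n))
    (h : ∀ R ⊆ U, ∀ u ∈ R, ‖PW E (R.erase u) x‖ ≤ y * ‖PW E R x‖) :
    ∀ S ⊆ U, ‖PW E (U \ S) x‖ ≤ y ^ S.card * ‖PW E U x‖ := by
  intro S
  induction S using Finset.induction_on with
  | empty =>
    intro _
    simp
  | insert a S ha ih =>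
    intro hS
    have haU : a ∈ U := hS (Finset.mem_insert_self a S)
    have hSU : S ⊆ U := (Finset.subset_insert a S).trans hS
    have h1 : U \ insert a S = (U \ S).erase a := by
      ext w
      simp only [Finset.mem_sdiff, Finset.mem_insert, Finset.mem_erase]
      tauto
    have h2 : a ∈ U \ S := Finset.mem_sdiff.mpr ⟨haU, ha⟩
    have h3 := h (U \ S) Finset.sdiff_subset a h2
    rw [h1, Finset.card_insert_of_notMem ha]
    calc ‖PW E ((U \ S).erase a) x‖ ≤ y * ‖PW E (U \ S) x‖ := h3
      _ ≤ y * (y ^ S.card * ‖PW E U x‖) := mul_le_mul_of_nonneg_left (ih hSU) hy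
      _ = y ^ (S.card + 1) * ‖PW E U x‖ := by ring

theorem rat_inv (e : ℂ) (he : ‖e‖ ≤ 1 / 350) (h1 : 1 + e ≠ 0) :
    ‖(1 + e)⁻¹ - 1‖ ≤ 1.003 * ‖e‖ := by
  have h2 : (1 + e)⁻¹ - 1 = -e * (1 + e)⁻¹ := by
    field_simp
    ring
  have h3 : 1 - 1 / 350 ≤ ‖1 + e‖ := by
    have h4 : ‖(1 : ℂ)‖ ≤ ‖1 + e‖ + ‖e‖ := by
      have h5 : (1 : ℂ) = (1 + e) - e := by ring
      calc ‖(1 : ℂ)‖ = ‖(1 + e) - e‖ := by rw [← h5]
        _ ≤ ‖1 + e‖ + ‖e‖ := norm_sub_le _ _
    rw [norm_one] at h4
    linarith
  rw [h2, norm_mul, norm_neg, norm_inv, mul_comm]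
  apply mul_le_mul_of_nonneg_right _ (norm_nonneg e)
  calc ‖1 + e‖⁻¹ ≤ (1 - 1 / 350 : ℝ)⁻¹ := inv_anti₀ (by norm_num) h3
    _ ≤ 1.003 := by norm_num

theorem rat_norm (q : ℂ) (hq : ‖q - 1‖ ≤ 1 / 350) : 349 / 350 ≤ ‖q‖ := by
  have h4 : ‖(1 : ℂ)‖ ≤ ‖q‖ + ‖q - 1‖ := by
    have h5 : (1 : ℂ) = q - (q - 1) := by ring
    calc ‖(1 : ℂ)‖ = ‖q - (q - 1)‖ := by rw [← h5]
      _ ≤ ‖q‖ + ‖q - 1‖ := norm_sub_le _ _
  rw [norm_one] at h4
  linarith

theorem st_RAT (h1 : ST_KREC) (h2 : ST_KB2) : ST_RAT := by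
  classical
  intro n Δ E x hE hd hx hΔ
  have hAl : Al E ∅ := rat_al E hE
  have hxp : 0 < ‖x‖ := norm_pos_iff.mpr hx
  have ht : (Δ : ℝ) / ‖x‖ ≤ 1 / 400 := by
    rw [div_le_iff₀ hxp]
    linarith
  have ht0 : 0 ≤ (Δ : ℝ) / ‖x‖ := by positivity
  -- the consequence of the bound
  have hcons : ∀ (R : Finset (Fin n)) (u : Fin n),
      ‖PW E R x / (x * PW E (R.erase u) x) - 1 + (dg E (R.erase u) u : ℂ) / x‖ ≤
        30 * (dg E (R.erase u) u) * Δ / ‖x‖ ^ 2 →
      ‖PW E R x / (x * PW E (R.erase u) x) - 1‖ ≤ 1.075 * (Δ / ‖x‖) ∧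
      ‖PW E R x / (x * PW E (R.erase u) x) - 1‖ ≤ 1 / 350 := by
    intro R u h
    have hdg : (dg E (R.erase u) u : ℝ) ≤ Δ := by
      exact_mod_cast rat_dg E hE hd (R.erase u) u
    have h3 : ‖PW E R x / (x * PW E (R.erase u) x) - 1‖ ≤
        ‖PW E R x / (x * PW E (R.erase u) x) - 1 + (dg E (R.erase u) u : ℂ) / x‖ +
        ‖(dg E (R.erase u) u : ℂ) / x‖ := by
      have h4 := norm_sub_le
        (PW E R x / (x * PW E (R.erase u) x) - 1 + (dg E (R.erase u) u : ℂ) / x)
        ((dg E (R.erase u) u : ℂ) / x)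
      rwa [add_sub_cancel_right] at h4
    have h5 : ‖(dg E (R.erase u) u : ℂ) / x‖ = (dg E (R.erase u) u : ℝ) / ‖x‖ := by
      rw [norm_div, Complex.norm_natCast]
    have h6 : (dg E (R.erase u) u : ℝ) / ‖x‖ ≤ Δ / ‖x‖ :=
      div_le_div_of_nonneg_right hdg hxp.le
    have h7 : 30 * (dg E (R.erase u) u : ℝ) * Δ / ‖x‖ ^ 2 ≤ 30 * (Δ / ‖x‖) * (Δ / ‖x‖) := by
      have h8 : 30 * (dg E (R.erase u) u : ℝ) * Δ / ‖x‖ ^ 2 =
          30 * ((dg E (R.erase u) u : ℝ) / ‖x‖) * (Δ / ‖x‖) := by
        field_simp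
      rw [h8]
      apply mul_le_mul_of_nonneg_right _ ht0
      linarith
    have h9 : 30 * ((Δ : ℝ) / ‖x‖) * (Δ / ‖x‖) ≤ 0.075 * (Δ / ‖x‖) := by
      apply mul_le_mul_of_nonneg_right _ ht0
      linarith
    constructor
    · rw [h5] at h3
      linarith
    · rw [h5] at h3
      linarith
  intro W
  induction W using Finset.strongInduction with
  | H W ih =>
    have hstep : ∀ v ∈ W,
        ‖PW E W x / (x * PW E (W.erase v) x) - 1 + (dg E (W.erase v) v : ℂ) / x‖ ≤
          30 * (dg E (W.erase v) v) * Δ / ‖x‖ ^ 2 := by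
      intro v hv
      have hss : W.erase v ⊂ W := Finset.erase_ssubset hv
      set U := W.erase v with hU
      have hvU : v ∉ U := Finset.notMem_erase v W
      have hsub : ∀ R ⊆ U, R ⊂ W := fun R hR => lt_of_le_of_lt hR hss
      have hne : PW E U x ≠ 0 := (ih U hss).1
      have hratio : ∀ R ⊆ U, ∀ u ∈ R, ‖PW E (R.erase u) x‖ ≤ 1.003 / ‖x‖ * ‖PW E R x‖ := by
        intro R hR u hu
        have h3 := (hcons R u ((ih R (hsub R hR)).2 u hu)).2
        have h4 := rat_norm _ h3
        have hne' : PW E (R.erase u) x ≠ 0 :=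
          (ih (R.erase u) (hsub _ ((Finset.erase_subset u R).trans hR))).1
        rw [norm_div, norm_mul] at h4
        have hp : 0 < ‖PW E (R.erase u) x‖ := norm_pos_iff.mpr hne'
        rw [le_div_iff₀ (by positivity)] at h4
        rw [div_mul_eq_mul_div, le_div_iff₀ hxp]
        nlinarith [norm_nonneg (PW E R x)]
      have hy0 : (0 : ℝ) ≤ 1.003 / ‖x‖ := by positivity
      have hyD : 1.003 / ‖x‖ * (Δ : ℝ) ≤ 1 / 100 := by
        have h3 : 1.003 / ‖x‖ * (Δ : ℝ) = 1.003 * (Δ / ‖x‖) := by ring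
        rw [h3]
        linarith
      obtain ⟨hk0, hk1, hk2⟩ := h2 n Δ E (1.003 / ‖x‖) hE hd hy0 hyD v
      have hk2' := hk2 U hvU
      have hrem := rat_remove E x (1.003 / ‖x‖) hy0 U hratio
      -- the recursion
      have hrec : PW E W x / (x * PW E U x) =
          ∑ S ∈ U.powerset, (kap E v S : ℂ) * PW E (U \ S) x / PW E U x := by
        rw [h1 n E hAl x W v hv, ← Finset.sum_div, ← hU]
        field_simp
      -- splitting
      have hsplit : ∑ S ∈ U.powerset, (kap E v S : ℂ) * PW E (U \ S) x / PW E U x =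
          1 + ∑ u ∈ U, (kap E v {u} : ℂ) * PW E (U.erase u) x / PW E U x +
          ∑ S ∈ U.powerset.filter (fun S => 2 ≤ S.card),
            (kap E v S : ℂ) * PW E (U \ S) x / PW E U x := by
        rw [← Finset.sum_filter_add_sum_filter_not U.powerset (fun S => 2 ≤ S.card), add_comm]
        congr 1
        have h3 : U.powerset.filter (fun S => ¬ 2 ≤ S.card) =
            insert ∅ (U.image (fun u => ({u} : Finset (Fin n)))) := by
          ext S
          simp only [Finset.mem_filter, Finset.mem_powerset, Finset.mem_insert,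
            Finset.mem_image]
          constructor
          · rintro ⟨h4, h5⟩
            rcases Nat.lt_or_ge S.card 1 with h6 | h6
            · left
              exact Finset.card_eq_zero.mp (by omega)
            · right
              obtain ⟨a, ha⟩ := Finset.card_eq_one.mp (by omega : S.card = 1)
              exact ⟨a, h4 (by rw [ha]; simp), ha.symm⟩
          · rintro (h4 | ⟨a, ha, h4⟩)
            · rw [h4]
              simp
            · rw [← h4]
              refine ⟨by simpa using ha, by simp⟩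
        rw [h3, Finset.sum_insert]
        · rw [hk0, Finset.sdiff_empty, Finset.sum_image]
          · congr 1
            · rw [Int.cast_one, one_mul, div_self hne]
            · apply Finset.sum_congr rfl
              intro u hu
              rw [Finset.sdiff_singleton_eq_erase]
          · intro a _ b _ hab
            exact Finset.singleton_injective hab
        · intro h4
          obtain ⟨a, _, ha⟩ := Finset.mem_image.mp h4
          exact Finset.singleton_ne_empty a ha
      -- neighbours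
      have hsingle : ∑ u ∈ U, (kap E v {u} : ℂ) * PW E (U.erase u) x / PW E U x =
          ∑ u ∈ U.filter (fun u => ({v, u} : Finset (Fin n)) ∈ E ∧ u ≠ v),
            -(PW E (U.erase u) x / PW E U x) := by
        rw [Finset.sum_filter]
        apply Finset.sum_congr rfl
        intro u hu
        have huv : u ≠ v := fun h => hvU (h ▸ hu)
        rw [hk1 u huv]
        by_cases hE' : ({v, u} : Finset (Fin n)) ∈ E
        · rw [if_pos hE', if_pos ⟨hE', huv⟩]
          push_cast
          ring
        · rw [if_neg hE', if_neg (fun h => hE' h.1)]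
          push_cast
          ring
      have hdx : (dg E U v : ℂ) / x =
          ∑ u ∈ U.filter (fun u => ({v, u} : Finset (Fin n)) ∈ E ∧ u ≠ v), (1 / x : ℂ) := by
        rw [Finset.sum_const, nsmul_eq_mul]
        unfold dg
        ring
      have htot : PW E W x / (x * PW E U x) - 1 + (dg E U v : ℂ) / x =
          ∑ u ∈ U.filter (fun u => ({v, u} : Finset (Fin n)) ∈ E ∧ u ≠ v),
            (1 / x - PW E (U.erase u) x / PW E U x) +
          ∑ S ∈ U.powerset.filter (fun S => 2 ≤ S.card),
            (kap E v S : ℂ) * PW E (U \ S) x / PW E U x := by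
        rw [hrec, hsplit, hsingle, hdx, Finset.sum_sub_distrib, Finset.sum_neg_distrib]
        ring
      have hA : ‖∑ u ∈ U.filter (fun u => ({v, u} : Finset (Fin n)) ∈ E ∧ u ≠ v),
            (1 / x - PW E (U.erase u) x / PW E U x)‖ ≤
          (dg E U v : ℝ) * (1.08 * Δ / ‖x‖ ^ 2) := by
        refine le_trans (norm_sum_le _ _) ?_
        have h3 : ∀ u ∈ U.filter (fun u => ({v, u} : Finset (Fin n)) ∈ E ∧ u ≠ v),
            ‖1 / x - PW E (U.erase u) x / PW E U x‖ ≤ 1.08 * Δ / ‖x‖ ^ 2 := by
          intro u hu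
          have huU : u ∈ U := (Finset.mem_filter.mp hu).1
          have h4 := hcons U u ((ih U hss).2 u huU)
          have hne' : PW E (U.erase u) x ≠ 0 :=
            (ih (U.erase u) (hsub _ (Finset.erase_subset u U))).1
          set e : ℂ := PW E U x / (x * PW E (U.erase u) x) - 1 with he
          have h5 : 1 + e = PW E U x / (x * PW E (U.erase u) x) := by
            rw [he]
            ring
          have h6 : 1 + e ≠ 0 := by
            rw [h5]
            exact div_ne_zero hne (mul_ne_zero hx hne')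
          have h7 := rat_inv e h4.2 h6
          have h8 : 1 / x - PW E (U.erase u) x / PW E U x = -(1 / x) * ((1 + e)⁻¹ - 1) := by
            rw [h5]
            field_simp
            ring
          rw [h8, norm_mul, norm_neg, norm_div, norm_one]
          calc 1 / ‖x‖ * ‖(1 + e)⁻¹ - 1‖ ≤ 1 / ‖x‖ * (1.003 * (1.075 * (Δ / ‖x‖))) := by
                apply mul_le_mul_of_nonneg_left _ (by positivity)
                refine le_trans h7 ?_
                apply mul_le_mul_of_nonneg_left h4.1 (by norm_num)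
            _ = (1.003 * 1.075) * Δ / ‖x‖ ^ 2 := by
                field_simp
            _ ≤ 1.08 * Δ / ‖x‖ ^ 2 := by
                apply div_le_div_of_nonneg_right _ (by positivity)
                apply mul_le_mul_of_nonneg_right _ (Nat.cast_nonneg Δ)
                norm_num
        refine le_trans (Finset.sum_le_sum h3) ?_
        rw [Finset.sum_const, nsmul_eq_mul]
        exact le_refl _
      have hB : ‖∑ S ∈ U.powerset.filter (fun S => 2 ≤ S.card),
            (kap E v S : ℂ) * PW E (U \ S) x / PW E U x‖ ≤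
          8 * (dg E U v) * Δ * (1.003 / ‖x‖) ^ 2 := by
        refine le_trans (norm_sum_le _ _) (le_trans (Finset.sum_le_sum ?_) hk2')
        intro S hS
        have hSU : S ⊆ U := Finset.mem_powerset.mp (Finset.mem_filter.mp hS).1
        rw [norm_div, norm_mul, Complex.norm_intCast, mul_div_assoc]
        apply mul_le_mul_of_nonneg_left _ (abs_nonneg _)
        rw [div_le_iff₀ (norm_pos_iff.mpr hne)]
        exact hrem S hSU
      rw [htot]
      refine le_trans (norm_add_le _ _) ?_
      have h3 : (dg E U v : ℝ) * (1.08 * Δ / ‖x‖ ^ 2) +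
          8 * (dg E U v) * Δ * (1.003 / ‖x‖) ^ 2 =
          (1.08 + 8 * 1.003 ^ 2) * ((dg E U v) * Δ / ‖x‖ ^ 2) := by
        field_simp
      have h4 : 30 * (dg E U v : ℝ) * Δ / ‖x‖ ^ 2 = 30 * ((dg E U v) * Δ / ‖x‖ ^ 2) := by
        ring
      have h5 : 0 ≤ (dg E U v : ℝ) * Δ / ‖x‖ ^ 2 := by positivity
      rw [h4]
      refine le_trans (add_le_add hA hB) ?_
      rw [h3]
      apply mul_le_mul_of_nonneg_right _ h5
      norm_num
    refine ⟨?_, hstep⟩
    rcases W.eq_empty_or_nonempty with h0 | ⟨v, hv⟩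
    · rw [h0, rat_empty]
      exact one_ne_zero
    · intro h0
      have h3 := (hcons W v (hstep v hv)).2
      rw [h0, zero_div, zero_sub, norm_neg, norm_one] at h3
      norm_num at h3

end Pool.Agent.Helper89.UB
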